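import Pool.Agent.Lib.MP_a7fa83_ag.Ok.Ch
import Pool.Agent.Lib.MP_a7fa83_ag.Lw.W5

/-!
# MP_a7fa83_ag : Q1 for `M = O(-D)`, `D` a reduced invariant divisor

Both clauses of Q1 for toric surfaces `S`, the line bundles `M = O(-D)`, `D` a reduced invariant
divisor (`D = 0` and `D = -K_S` included), all equivariant line bundles `L` and all characteristic
classes `f`, in the form given by localization.

Localization.  The fixed points of `Hilb(S, n)` are the tuples `(p_c)` of partitions, one for each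
fixed point `c` of `S`, of total size `n`.  Let `t₁ c, t₂ c` be the tangent weights of `S` at `c`,
and `l c`, `m c` the weights of `L`, `M` at `c`.  At the fixed point `(p_c)`

* `ch_k` of the fibre of `L^[n]` is the sum over `c` and over the boxes `(i, j)` of `p_c` of
  `(l c - i t₁ c - j t₂ c)^k / k!`;
* the weights of the tangent space of `Hilb(S, n)` are `(a + 1) t₁ - b t₂` and
  `(b + 1) t₂ - a t₁`, where `a`, `b` are the arm and the leg of a box of `p_c`, and the weights of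
  `T(M)` are these plus `m c`.

`av m l t₁ t₂ f` is the resulting expression of `⟨f⟩` (with coefficients in a commutative
`ℚ`-algebra `Λ` in which the Euler classes of the tangent spaces are invertible).

If `M = O(-D)` with the invariant section of `O(D)` vanishing on `D`, then `m c` is `0` at the fixed
points `c` outside `D`, `- t₁ c` or `- t₂ c` at the fixed points on one component of `D`, and
`- t₁ c - t₂ c` at the intersections of two components.  So `result` contains all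
`M = O(-D)`, `D` reduced and invariant, in particular `M = O` and `M = K_S`.

`result`: if `m c` is `0`, `- t₁ c`, `- t₂ c` or `- t₁ c - t₂ c` at every `c`, then
`⟨f⟩ = ⟨1⟩ G` where `G` is in the `Λ`-span of the `Z(s)` (all `s_i ≥ 2`) of weight `≤ wt f`; and
if `L` is a square root of `K_S` and all monomials of `f` have weights of the parity of `wt f`,
then `G` is in the span of the `Z(s)` of weight `≤ wt f` and of the parity of `wt f`.
-/

set_option autoImplicit false

namespace Pool.Agent.Results.MP_a7fa83_ag.BoundaryM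

open Finset PowerSeries MPa7fa83 MPa7fa83.Ok

section

variable {Λ : Type*} [CommRing Λ] [Algebra ℚ Λ]

/-- the height of the column `i` of the Young diagram: the number of parts `> i` -/
def col {n : ℕ} (p : n.Partition) (i : ℕ) : ℕ := (p.parts.filter (i < ·)).card

/-- the length of the row `j` of the Young diagram -/
def row {n : ℕ} (p : n.Partition) (j : ℕ) : ℕ := ((range n).filter (j < col p ·)).card

/-- the value of `ch_k` at one partition: the sum of `(l - i t₁ - j t₂)^k / k!` over the boxes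
`(i, j)`, `j < col p i` -/
def ch (l t₁ t₂ : Λ) (k : ℕ) {n : ℕ} (p : n.Partition) : Λ :=
  ∑ i ∈ range n, ∑ j ∈ range (col p i), (k.factorial : ℚ)⁻¹ • (l - i * t₁ - j * t₂) ^ k

/-- the tangent weight `(a + 1) t₁ - b t₂`, `a = row p j - i - 1` the arm and
`b = col p i - j - 1` the leg of the box `(i, j)` -/
def w₁ (t₁ t₂ : Λ) {n : ℕ} (p : n.Partition) (i j : ℕ) : Λ :=
  ((row p j - i : ℕ) : Λ) * t₁ - ((col p i - j : ℕ) - 1 : Λ) * t₂

/-- the tangent weight `(b + 1) t₂ - a t₁` -/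
def w₂ (t₁ t₂ : Λ) {n : ℕ} (p : n.Partition) (i j : ℕ) : Λ :=
  ((col p i - j : ℕ) : Λ) * t₂ - ((row p j - i : ℕ) - 1 : Λ) * t₁

/-- the Euler class of the fibre of `T(M)` at one partition, `m` the weight of `M` -/
def eul (m t₁ t₂ : Λ) {n : ℕ} (p : n.Partition) : Λ :=
  ∏ i ∈ range n, ∏ j ∈ range (col p i), ((m + w₁ t₁ t₂ p i j) * (m + w₂ t₁ t₂ p i j))

/-- the weight of a monomial in `ch_0, ch_1, ch_2, ...` : the weight of `ch_k` is `k + 2` -/
def mwt (d : ℕ →₀ ℕ) : ℕ := d.sum fun k n => n * (k + 2)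

variable {ι : Type*} [Fintype ι] [DecidableEq ι]

/-- `⟨f⟩` by localization: the coefficient of `q^n` is the sum over all tuples of partitions of
total size `n` of the value of the polynomial `f` in `ch_0, ch_1, ...`, times the Euler class of
`T(M)`, divided by the Euler class of the tangent space -/
noncomputable def av (m l t₁ t₂ : ι → Λ) (f : MvPolynomial ℕ Λ) : Λ⟦X⟧ :=
  PowerSeries.mk fun n => ∑ ν ∈ Finset.finsuppAntidiag (Finset.univ : Finset ι) n,
    ∑ p : (∀ c, (ν c).Partition),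
      MvPolynomial.eval (fun k => ∑ c, ch (l c) (t₁ c) (t₂ c) k (p c)) f *
      ∏ c, (eul (m c) (t₁ c) (t₂ c) (p c) * Ring.inverse (eul 0 (t₁ c) (t₂ c) (p c)))

omit [Algebra ℚ Λ] in
lemma eul_K (t₁ t₂ : Λ) {n : ℕ} (p : n.Partition) : eul (-(t₁ + t₂)) t₁ t₂ p = eul 0 t₁ t₂ p := by
  unfold eul
  apply Finset.prod_congr rfl
  intro i _
  apply Finset.prod_congr rfl
  intro j _
  unfold w₁ w₂
  ring

omit [Algebra ℚ Λ] in
lemma eul_zero {m t₁ t₂ : Λ} (hm : m = -t₁ ∨ m = -t₂) {n : ℕ} (hn : n ≠ 0) (p : n.Partition) :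
    eul m t₁ t₂ p = 0 := by
  have h0 : ((0, 0) : ℕ × ℕ) ∈ Cs.cel p := by
    rw [Cs.mem_cel]
    have h1 : p.parts ≠ 0 := by
      intro h
      apply hn
      rw [← p.parts_sum, h, Multiset.sum_zero]
    obtain ⟨x, hx⟩ := Multiset.exists_mem_of_ne_zero h1
    show 0 < (p.parts.filter (0 < ·)).card
    rw [Multiset.card_pos_iff_exists_mem]
    exact ⟨x, Multiset.mem_filter.2 ⟨hx, p.parts_pos hx⟩⟩
  obtain ⟨⟨i, j⟩, hm1, _, h3, h4⟩ := Lw.exists_corner h0
  obtain ⟨h5, h6⟩ := Cs.arm_cel p hm1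
  rw [h3] at h5
  rw [h4] at h6
  have hr : row p j - i = 1 := h5
  have hc : col p i - j = 1 := h6
  have hi : i ∈ range n := by
    have h7 := hm1
    unfold Cs.cel at h7
    exact (Finset.mem_product.1 (Finset.mem_filter.1 h7).1).1
  have hj : j ∈ range (col p i) := by
    rw [Finset.mem_range]
    omega
  unfold eul
  refine Finset.prod_eq_zero hi (Finset.prod_eq_zero hj ?_)
  unfold w₁ w₂
  rw [hr, hc]
  rcases hm with rfl | rfl
  · push_cast
    ring
  · push_cast
    ring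

omit [Algebra ℚ Λ] in
lemma eul_nil {x t₁ t₂ : Λ} {n : ℕ} (hn : n = 0) (p : n.Partition) : eul x t₁ t₂ p = 1 := by
  subst hn
  unfold eul
  rw [Finset.prod_range_zero]

/-- the sum over the partitions (`b = false`) or over the empty partition only (`b = true`) -/
noncomputable def ELw (b : Bool) (f : List Bool → Λ) : Λ⟦X⟧ :=
  PowerSeries.mk fun n => ∑ p : n.Partition,
    f (bd p.parts n) * (if b = true ∧ n ≠ 0 then 0 else 1)

omit [Algebra ℚ Λ] in
lemma ELw_false (f : List Bool → Λ) : ELw false f = EL f := by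
  unfold ELw EL
  ext n
  simp

omit [Algebra ℚ Λ] in
lemma ELw_true (f : List Bool → Λ) : ELw true f = C (f []) := by
  unfold ELw
  ext n
  rw [coeff_mk, coeff_C]
  by_cases hn : n = 0
  · subst hn
    simp [bd]
  · simp [hn]

lemma const_mem {m : ℕ} {f : List Bool → Λ} (hf : f ∈ Bn Λ m) :
    C (f []) ∈ qM Λ (fun a n => ∃ k, a + 2 * k = n) m := by
  unfold Bn at hf
  induction hf using Submodule.span_induction with
  | mem x hx =>
    obtain ⟨w, _, ⟨k, hk⟩, rfl⟩ := hx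
    rcases w with _ | ⟨c, w⟩
    · have e : cn Λ [] [] = (1 : Λ) := rfl
      rw [e, map_one]
      exact one_mem_qM ⟨k, by simpa using hk⟩
    · have e : cn Λ (c :: w) [] = (0 : Λ) := rfl
      rw [e, map_zero]
      exact zero_mem _
  | zero =>
    rw [Pi.zero_apply, map_zero]
    exact zero_mem _
  | add x y _ _ hx hy =>
    rw [Pi.add_apply, map_add]
    exact add_mem hx hy
  | smul c x _ hx =>
    rw [Pi.smul_apply, smul_eq_mul, map_mul, ← PowerSeries.smul_eq_C_mul]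
    exact Submodule.smul_mem _ _ hx

lemma ELw_mem (b : Bool) {m : ℕ} {f : List Bool → Λ} (hf : f ∈ Bn Λ m) :
    ∃ G ∈ qM Λ (fun a n => ∃ k, a + 2 * k = n) m, ELw b f = ELw b 1 * G := by
  cases b
  · rw [ELw_false, ELw_false]
    exact EL_mem okRel_par ⟨0, rfl⟩ hf
  · refine ⟨C (f []), const_mem hf, ?_⟩
    rw [ELw_true, ELw_true, Pi.one_apply, map_one, one_mul]

/-- the sum over tuples of partitions, empty at the points `c` with `b c = true` -/
noncomputable def avW (b : ι → Bool) (F : (ι → List Bool) → Λ) : Λ⟦X⟧ :=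
  PowerSeries.mk fun n => ∑ ν ∈ Finset.finsuppAntidiag (Finset.univ : Finset ι) n,
    ∑ p : (∀ c, (ν c).Partition), F (fun c => bd (p c).parts (ν c)) *
      ∏ c, (if b c = true ∧ ν c ≠ 0 then 0 else 1)

omit [Algebra ℚ Λ] in
lemma avW_add (b : ι → Bool) (f g : (ι → List Bool) → Λ) :
    avW b (f + g) = avW b f + avW b g := by
  ext n
  simp only [avW, coeff_mk, map_add, Pi.add_apply, Finset.sum_add_distrib, add_mul]

omit [Algebra ℚ Λ] in
lemma avW_smul (b : ι → Bool) (c : Λ) (f : (ι → List Bool) → Λ) :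
    avW b (c • f) = c • avW b f := by
  ext n
  simp only [avW, coeff_mk, PowerSeries.coeff_smul, Pi.smul_apply, smul_eq_mul, Finset.mul_sum,
    mul_assoc]

omit [Algebra ℚ Λ] in
lemma avW_zero (b : ι → Bool) : avW b (0 : (ι → List Bool) → Λ) = 0 := by
  ext n
  simp [avW]

omit [Algebra ℚ Λ] in
lemma avW_prod (b : ι → Bool) (f : ι → List Bool → Λ) :
    avW b (fun β => ∏ c, f c (β c)) = ∏ c, ELw (b c) (f c) := by
  ext n
  rw [PowerSeries.coeff_prod]
  unfold avW
  rw [coeff_mk]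
  apply Finset.sum_congr rfl
  intro ν _
  have h := Finset.prod_univ_sum (κ := fun c => (ν c).Partition)
    (fun c => (Finset.univ : Finset (ν c).Partition)) (fun c p => f c (bd p.parts (ν c)) *
      (if b c = true ∧ ν c ≠ 0 then 0 else 1))
  rw [Fintype.piFinset_univ] at h
  simp only [← Finset.prod_mul_distrib]
  rw [← h]
  apply Finset.prod_congr rfl
  intro c _
  rw [ELw, coeff_mk]

theorem avW_mem (b : ι → Bool) {ok : ℕ → ℕ → Prop} (hok : OkRel ok) {n : ℕ}
    {F : (ι → List Bool) → Λ} (hF : F ∈ TP Λ ι ok n) :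
    ∃ G ∈ qM Λ ok n, avW b F = avW b (1 : (ι → List Bool) → Λ) * G := by
  have e1 : avW b (1 : (ι → List Bool) → Λ) = ∏ c : ι, ELw (b c) (1 : List Bool → Λ) := by
    rw [← avW_prod b (fun _ => 1)]
    congr 1
    funext β
    simp
  unfold TP at hF
  induction hF using Submodule.span_induction with
  | mem x hx =>
    obtain ⟨f, m, hf, h, rfl⟩ := hx
    have hm : ∀ c, ∃ G ∈ qM Λ (fun a n => ∃ k, a + 2 * k = n) (m c),
        ELw (b c) (f c) = ELw (b c) 1 * G := fun c => ELw_mem (b c) (hf c)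
    choose G hG e using hm
    have hprod : ∀ s : Finset ι, ∏ c ∈ s, G c ∈
        qM Λ (fun a n => ∃ k, a + 2 * k = n) (∑ c ∈ s, m c) := by
      intro s
      induction s using Finset.induction_on with
      | empty => exact one_mem_qM ⟨0, rfl⟩
      | insert a s ha ih =>
        rw [Finset.prod_insert ha, Finset.sum_insert ha]
        exact qM_mul okRel_par (hG a) ih
    refine ⟨∏ c, G c, ?_, ?_⟩
    · have h2 := hprod Finset.univ
      unfold qM at h2 ⊢
      refine Submodule.span_mono ?_ h2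
      rintro g ⟨l, hl, ⟨k, hk⟩, rfl⟩
      exact ⟨l, hl, hok.down (k := k) (by rwa [hk]), rfl⟩
    · rw [avW_prod, e1, ← Finset.prod_mul_distrib]
      exact Finset.prod_congr rfl (fun c _ => e c)
  | zero => exact ⟨0, zero_mem _, by rw [avW_zero, mul_zero]⟩
  | add x y _ _ hx hy =>
    obtain ⟨G, hG, e⟩ := hx
    obtain ⟨G', hG', e'⟩ := hy
    exact ⟨G + G', add_mem hG hG', by rw [avW_add, e, e', mul_add]⟩
  | smul c x _ hx =>
    obtain ⟨G, hG, e⟩ := hx
    exact ⟨c • G, Submodule.smul_mem _ _ hG, by rw [avW_smul, e, mul_smul_comm]⟩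

lemma ch_eq (l t₁ t₂ : Λ) (k : ℕ) {n : ℕ} (p : n.Partition) :
    ch l t₁ t₂ k p = chb l t₁ t₂ k (bd p.parts n) := by
  unfold chb
  rw [bs_bd _ p.parts n n (fun i hi => p.parts_pos hi) (fun i hi => p.le_of_mem_parts hi)
    (fun i hi => p.le_of_mem_parts hi)]
  rfl

/-- the statistic of `ch_k` on tuples of boundaries -/
def St (l t₁ t₂ : ι → Λ) (k : ℕ) : (ι → List Bool) → Λ :=
  fun β => ∑ c, chb (l c) (t₁ c) (t₂ c) k (β c)

omit [DecidableEq ι] in
lemma St_eq (l t₁ t₂ : ι → Λ) (k : ℕ) : St l t₁ t₂ k =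
    ∑ c, ∑ k' ∈ range (k + 1), fun β : ι → List Bool => chp (l c) (t₁ c) (t₂ c) k k' (β c) := by
  funext β
  unfold St
  rw [Finset.sum_apply]
  apply Finset.sum_congr rfl
  intro c _
  rw [chb_eq, Finset.sum_apply]

lemma St_mem (l t₁ t₂ : ι → Λ) (k : ℕ) :
    St l t₁ t₂ k ∈ TP Λ ι (fun a n => a ≤ n) (k + 2) := by
  rw [St_eq]
  apply Submodule.sum_mem
  intro c _
  apply Submodule.sum_mem
  intro k' hk'
  have h := Finset.mem_range.1 hk'
  exact TP_single (ok := fun a n => a ≤ n) (m := k' + 2) (n := k + 2) (by omega)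
    (chp_mem (l c) (t₁ c) (t₂ c) k k') c

lemma St_mem_par {l t₁ t₂ : ι → Λ} (h : ∀ c, 2 * l c = -(t₁ c + t₂ c)) (k : ℕ) :
    St l t₁ t₂ k ∈ TP Λ ι (fun a n => ∃ j, a + 2 * j = n) (k + 2) := by
  rw [St_eq]
  apply Submodule.sum_mem
  intro c _
  apply Submodule.sum_mem
  intro k' hk'
  have h1 := Finset.mem_range.1 hk'
  rcases Nat.lt_succ_iff_lt_or_eq.1 h1 with h2 | h2
  · have e : (fun β : ι → List Bool => chp (l c) (t₁ c) (t₂ c) k k' (β c)) = 0 := by
      funext β
      exact chp_eq_zero (h c) h2 (β c)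
    rw [e]
    exact Submodule.zero_mem _
  · subst h2
    exact TP_single (ok := fun a n => ∃ j, a + 2 * j = n) (m := k' + 2) (n := k' + 2) ⟨0, rfl⟩
      (chp_mem (l c) (t₁ c) (t₂ c) k' k') c

lemma TP_pow {ok : ℕ → ℕ → Prop} (hok : OkRel ok) {a : ℕ} {F : (ι → List Bool) → Λ}
    (hF : F ∈ TP Λ ι ok a) (n : ℕ) : F ^ n ∈ TP Λ ι ok (n * a) := by
  induction n with
  | zero =>
    rw [pow_zero, Nat.zero_mul]
    exact one_mem_TP hok
  | succ n ih =>
    rw [pow_succ, Nat.succ_mul]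
    exact TP_mul hok ih hF

lemma TP_prod {ok : ℕ → ℕ → Prop} (hok : OkRel ok) {S : ℕ → (ι → List Bool) → Λ}
    (hS : ∀ k, S k ∈ TP Λ ι ok (k + 2)) (u : ℕ → ℕ) (s : Finset ℕ) :
    ∏ k ∈ s, S k ^ u k ∈ TP Λ ι ok (∑ k ∈ s, u k * (k + 2)) := by
  induction s using Finset.induction_on with
  | empty =>
    rw [Finset.prod_empty, Finset.sum_empty]
    exact one_mem_TP hok
  | insert a s ha ih =>
    rw [Finset.prod_insert ha, Finset.sum_insert ha]
    exact TP_mul hok (TP_pow hok (hS a) (u a)) ih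

omit [DecidableEq ι] in
lemma TP_mono {ok : ℕ → ℕ → Prop} {n m : ℕ} (h : ∀ a, ok a n → ok a m)
    {F : (ι → List Bool) → Λ} (hF : F ∈ TP Λ ι ok n) : F ∈ TP Λ ι ok m := by
  unfold TP at hF ⊢
  refine Submodule.span_mono ?_ hF
  rintro F ⟨f, u, h1, h2, h3⟩
  exact ⟨f, u, h1, h _ h2, h3⟩

/-- the statistic of `f` on tuples of boundaries -/
noncomputable def Fv (l t₁ t₂ : ι → Λ) (f : MvPolynomial ℕ Λ) : (ι → List Bool) → Λ :=
  fun β => MvPolynomial.eval (fun k => St l t₁ t₂ k β) f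

lemma Fv_mem {ok : ℕ → ℕ → Prop} (hok : OkRel ok) {l t₁ t₂ : ι → Λ}
    (hS : ∀ k, St l t₁ t₂ k ∈ TP Λ ι ok (k + 2)) {f : MvPolynomial ℕ Λ} {w : ℕ}
    (hf : ∀ d ∈ f.support, ∀ a, ok a (mwt d) → ok a w) : Fv l t₁ t₂ f ∈ TP Λ ι ok w := by
  have e : Fv l t₁ t₂ f = ∑ d ∈ f.support, f.coeff d • ∏ k ∈ d.support, St l t₁ t₂ k ^ d k := by
    funext β
    unfold Fv
    rw [MvPolynomial.eval_eq, Finset.sum_apply]
    apply Finset.sum_congr rfl
    intro d _
    rw [Pi.smul_apply, smul_eq_mul, Finset.prod_apply]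
    rfl
  rw [e]
  apply Submodule.sum_mem
  intro d hd
  apply Submodule.smul_mem
  exact TP_mono (hf d hd) (TP_prod hok hS d d.support)

lemma av_eq {m t₁ t₂ : ι → Λ}
    (hm : ∀ c, m c = 0 ∨ m c = -t₁ c ∨ m c = -t₂ c ∨ m c = -(t₁ c + t₂ c))
    (hu : ∀ (c : ι) (n : ℕ) (p : n.Partition), IsUnit (eul 0 (t₁ c) (t₂ c) p))
    (l : ι → Λ) : ∃ b : ι → Bool, ∀ f : MvPolynomial ℕ Λ,
      av m l t₁ t₂ f = avW b (Fv l t₁ t₂ f) := by
  classical
  refine ⟨fun c => decide (¬ (m c = 0 ∨ m c = -(t₁ c + t₂ c))), fun f => ?_⟩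
  unfold av avW Fv St
  ext n
  rw [coeff_mk, coeff_mk]
  apply Finset.sum_congr rfl
  intro ν _
  apply Finset.sum_congr rfl
  intro p _
  simp only [ch_eq]
  congr 1
  apply Finset.prod_congr rfl
  intro c _
  by_cases hc : m c = 0 ∨ m c = -(t₁ c + t₂ c)
  · rw [if_neg (fun h => (of_decide_eq_true h.1) hc)]
    have e : eul (m c) (t₁ c) (t₂ c) (p c) = eul 0 (t₁ c) (t₂ c) (p c) := by
      rcases hc with h | h
      · rw [h]
      · rw [h, eul_K]
    rw [e, Ring.mul_inverse_cancel _ (hu c _ _)]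
  · have h1 : m c = -t₁ c ∨ m c = -t₂ c := by
      rcases hm c with h | h | h | h
      · exact absurd (Or.inl h) hc
      · exact Or.inl h
      · exact Or.inr h
      · exact absurd (Or.inr h) hc
    by_cases hn : ν c = 0
    · rw [if_neg (fun h => h.2 hn), eul_nil hn, eul_nil hn, Ring.inverse_one, one_mul]
    · rw [if_pos ⟨decide_eq_true hc, hn⟩, eul_zero h1 hn, zero_mul]

omit [DecidableEq ι] in
lemma Fv_one (l t₁ t₂ : ι → Λ) : Fv l t₁ t₂ (1 : MvPolynomial ℕ Λ) = 1 := by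
  funext β
  unfold Fv
  rw [map_one]
  rfl

end

/-- Q1 of the problem (both clauses) for `M = O(-D)`, `D` reduced and invariant, toric `S`, all `L`
and all `f`. -/
theorem result {Λ : Type*} [CommRing Λ] [Algebra ℚ Λ] {ι : Type*} [Fintype ι] [DecidableEq ι]
    (m l t₁ t₂ : ι → Λ)
    (hu : ∀ (c : ι) (n : ℕ) (p : n.Partition), IsUnit (eul 0 (t₁ c) (t₂ c) p))
    (hm : ∀ c, m c = 0 ∨ m c = -t₁ c ∨ m c = -t₂ c ∨ m c = -(t₁ c + t₂ c))
    (f : MvPolynomial ℕ Λ) (w : ℕ) (hw : ∀ d ∈ f.support, mwt d ≤ w) :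
    (∃ G ∈ qMZV Λ w, av m l t₁ t₂ f = av m l t₁ t₂ 1 * G) ∧
    ((∀ c, 2 * l c = -(t₁ c + t₂ c)) → (∀ d ∈ f.support, mwt d % 2 = w % 2) →
      ∃ G ∈ qMZVpar Λ w, av m l t₁ t₂ f = av m l t₁ t₂ 1 * G) := by
  obtain ⟨b, hb⟩ := av_eq hm hu l
  rw [hb, hb, Fv_one]
  refine ⟨?_, fun h hw2 => ?_⟩
  · have h1 : Fv l t₁ t₂ f ∈ TP Λ ι (fun a n => a ≤ n) w :=
      Fv_mem okRel_le (St_mem l t₁ t₂) (fun d hd a ha => le_trans ha (hw d hd))
    obtain ⟨G, hG, e⟩ := avW_mem b okRel_le h1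
    exact ⟨G, hG, e⟩
  · have h1 : Fv l t₁ t₂ f ∈ TP Λ ι (fun a n => ∃ j, a + 2 * j = n) w := by
      refine Fv_mem okRel_par (St_mem_par h) ?_
      intro d hd a ⟨k, hk⟩
      have h2 := hw d hd
      have h3 := hw2 d hd
      exact ⟨k + (w - mwt d) / 2, by omega⟩
    obtain ⟨G, hG, e⟩ := avW_mem b okRel_par h1
    refine ⟨G, ?_, e⟩
    unfold qM at hG
    unfold qMZVpar
    refine Submodule.span_mono ?_ hG
    rintro g ⟨s, hs, ⟨k, hk⟩, rfl⟩
    exact ⟨s, hs, by omega, by omega, rfl⟩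

end Pool.Agent.Results.MP_a7fa83_ag.BoundaryM
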