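import Pool.Agent.Lib.MP_a7fa83_ag.Cs.L7

/-!
# MP_a7fa83_ag : Q1 for projective surfaces with a trivial group action

Both clauses of Q1 for projective surfaces `S` on which the group acts trivially, all line bundles
`L`, `M` and all `f`, in the form given by localization and by the universality theorem.

Localization.  Let `S` be a projective toric surface.  The fixed points of `Hilb(S, n)` under the
big torus are the tuples `(p_c)` of partitions, one for each fixed point `c` of `S`, of total size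
`n`.  Let `t₁, t₂` be the tangent weights of `S` at `c`, `l`, `m` the weights of `L`, `M` at `c`.
At the fixed point `(p_c)`

* `ch_k` of the fibre of `L^[n]` is the sum over `c` and over the boxes `(i, j)` of `p_c` of
  `(l - i t₁ - j t₂)^k / k!`;
* the weights of the tangent space of `Hilb(S, n)` are `(a + 1) t₁ - b t₂` and
  `(b + 1) t₂ - a t₁`, where `a`, `b` are the arm and the leg of a box of `p_c`, and the weights of
  `T(M)` are these plus `m`.

`av` is the resulting expression of `⟨f⟩`.  Here the torus weights are multiplied by a parameter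
`z`: `t₁ = z A_c`, `t₂ = z B_c`, and `L`, `M` carry characters `l`, `m` of a group acting trivially on
`S`, with weights `l + z L_c`, `m + z M_c`.  The integral for the trivial action is the value at
`z = 0`.  The four hypotheses on sums say that the integrals over `S` of `1`, `c_1(S)`, `c_1(M)`,
`c_1(L)` are zero.

Universality.  `V = ⟨exp ∑ τ_k ch_k⟩` is a product over the fixed points.  By the theorem of
Ellingsrud, Göttsche and Lehn, for every projective surface with `L`, `M` it is a product of integer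
powers of the `V` of toric surfaces; so there are exponents `ε_c` (`1` for a toric `S`).

`result`: every `⟨f⟩` is regular at `z = 0`, and its value at `z = 0` is the one of `⟨1⟩` times an
element of the span of the `Z(s)` of weight `≤ wt f`; and if `L` is a square root of `K_S` and all
monomials of `f` have weights of the parity of `wt f`, an element of the span of the `Z(s)` of
weight `≤ wt f` and of the parity of `wt f`.
-/

set_option autoImplicit false

namespace Pool.Agent.Results.MP_a7fa83_ag.CompactS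

open Finset PowerSeries MPa7fa83 MPa7fa83.Ok MPa7fa83.Cs

section

variable {F : Type*} [Field F]

/-- the height of the column `i` of the Young diagram: the number of parts `> i` -/
def col {n : ℕ} (p : n.Partition) (i : ℕ) : ℕ := (p.parts.filter (i < ·)).card

/-- the length of the row `j` of the Young diagram -/
def row {n : ℕ} (p : n.Partition) (j : ℕ) : ℕ := ((range n).filter (j < col p ·)).card

/-- the value of `ch_k` at one partition: the sum of `(l - i t₁ - j t₂)^k / k!` over the boxes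
`(i, j)`, `j < col p i` -/
def ch (l t₁ t₂ : F) (k : ℕ) {n : ℕ} (p : n.Partition) : F :=
  ∑ i ∈ range n, ∑ j ∈ range (col p i), (l - i * t₁ - j * t₂) ^ k / (k.factorial : F)

/-- the tangent weight `(a + 1) t₁ - b t₂`, `a = row p j - i - 1` the arm and
`b = col p i - j - 1` the leg of the box `(i, j)` -/
def w₁ (t₁ t₂ : F) {n : ℕ} (p : n.Partition) (i j : ℕ) : F :=
  ((row p j - i : ℕ) : F) * t₁ - ((col p i - j : ℕ) - 1 : F) * t₂

/-- the tangent weight `(b + 1) t₂ - a t₁` -/
def w₂ (t₁ t₂ : F) {n : ℕ} (p : n.Partition) (i j : ℕ) : F :=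
  ((col p i - j : ℕ) : F) * t₂ - ((row p j - i : ℕ) - 1 : F) * t₁

/-- the Euler class of the fibre of `T(M)` at one partition, `m` the weight of `M` -/
def eul (m t₁ t₂ : F) {n : ℕ} (p : n.Partition) : F :=
  ∏ i ∈ range n, ∏ j ∈ range (col p i), ((m + w₁ t₁ t₂ p i j) * (m + w₂ t₁ t₂ p i j))

/-- the weight of a monomial in `ch_0, ch_1, ch_2, ...` : the weight of `ch_k` is `k + 2` -/
def mwt (d : ℕ →₀ ℕ) : ℕ := d.sum fun k n => n * (k + 2)

/-- the contribution of one fixed point of `S` to the generating series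
`⟨exp ∑_k τ_k ch_k⟩`; the coefficient of `τ^I` is a power series in `q` -/
noncomputable def gen (m l t₁ t₂ : F) : MvPowerSeries ℕ F⟦X⟧ := fun I =>
  PowerSeries.mk fun n => ∑ p : n.Partition,
    (eul m t₁ t₂ p / eul 0 t₁ t₂ p) * I.prod fun k a => ch l t₁ t₂ k p ^ a / (a.factorial : F)

/-- `⟨f⟩` from the generating series `V = ⟨exp ∑_k τ_k ch_k⟩` -/
noncomputable def brk (V : MvPowerSeries ℕ F⟦X⟧) (f : MvPolynomial ℕ F) : F⟦X⟧ :=
  ∑ d ∈ f.support, C (f.coeff d * ((d.prod fun _ a => a.factorial : ℕ) : F)) *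
    MvPowerSeries.coeff d V

/-- `⟨f⟩` by localization: the coefficient of `q^n` is the sum over all tuples of partitions of
total size `n` of the value of the polynomial `f` in `ch_0, ch_1, ...`, times the Euler class of
`T(M)`, divided by the Euler class of the tangent space -/
noncomputable def av {ι : Type*} [Fintype ι] [DecidableEq ι] (m l t₁ t₂ : ι → F)
    (f : MvPolynomial ℕ F) : F⟦X⟧ :=
  PowerSeries.mk fun n => ∑ ν ∈ Finset.finsuppAntidiag (Finset.univ : Finset ι) n,
    ∑ p : (∀ c, (ν c).Partition),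
      MvPolynomial.eval (fun k => ∑ c, ch (l c) (t₁ c) (t₂ c) k (p c)) f *
      ∏ c, (eul (m c) (t₁ c) (t₂ c) (p c) / eul 0 (t₁ c) (t₂ c) (p c))

end

section

variable {K : Type*} [Field K]

/-- the weight `a + b z` -/
noncomputable def zw (a b : K) : LaurentSeries K := HahnSeries.C a + HahnSeries.single 1 b

/-- regular at `z = 0` -/
def RegAt0 (g : (LaurentSeries K)⟦X⟧) : Prop := ∀ n : ℕ, ∀ i : ℤ, i < 0 → (coeff n g).coeff i = 0

/-- the value at `z = 0` of a regular series -/
noncomputable def at0 (g : (LaurentSeries K)⟦X⟧) : K⟦X⟧ :=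
  PowerSeries.mk fun n => (coeff n g).coeff 0

/-- `⟨f⟩` as a `q`-series with coefficients in Laurent series in `z` -/
noncomputable def br (V : MvPowerSeries ℕ (LaurentSeries K)⟦X⟧) (f : MvPolynomial ℕ K) :
    (LaurentSeries K)⟦X⟧ := brk V (MvPolynomial.map HahnSeries.C f)

end

section

variable {F : Type*} [Field F] [Algebra ℚ F]

lemma sum_boxes {n : ℕ} (p : n.Partition) {M : Type*} [AddCommMonoid M] (φ : ℕ × ℕ → M) :
    ∑ e ∈ cel p, φ e = ∑ i ∈ range n, ∑ j ∈ range (col p i), φ (i, j) := by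
  unfold cel
  rw [Finset.sum_filter, Finset.sum_product]
  apply Finset.sum_congr rfl
  intro i _
  have h : pcol p i ≤ n := by
    by_contra h
    push Not at h
    have h2 := (mem_cel p (e := (i, n))).2 h
    unfold cel at h2
    simp at h2
  rw [← Finset.sum_filter]
  apply Finset.sum_congr
  · ext j
    simp only [Finset.mem_filter, Finset.mem_range]
    constructor
    · exact fun h' => h'.2
    · exact fun h' => ⟨lt_of_lt_of_le h' h, h'⟩
  · intro j _
    rfl

lemma prod_boxes {n : ℕ} (p : n.Partition) {M : Type*} [CommMonoid M] (φ : ℕ × ℕ → M) :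
    ∏ e ∈ cel p, φ e = ∏ i ∈ range n, ∏ j ∈ range (col p i), φ (i, j) :=
  sum_boxes (M := Additive M) p φ

lemma ch_cel (l t₁ t₂ : F) (k : ℕ) {n : ℕ} (p : n.Partition) :
    ch l t₁ t₂ k p = chs l (-t₁) (-t₂) k (cel p) := by
  unfold ch chs
  rw [sum_boxes]
  apply Finset.sum_congr rfl
  intro i _
  apply Finset.sum_congr rfl
  intro j _
  unfold MPa7fa83.Cs.cn
  rw [map_inv₀, map_natCast, div_eq_inv_mul]
  congr 2
  ring

omit [Algebra ℚ F] in
lemma eul_cel (m t₁ t₂ : F) {n : ℕ} (p : n.Partition) :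
    eul m t₁ t₂ p / eul 0 t₁ t₂ p = wg (-t₁) (-t₂) (-m) (cel p) := by
  unfold eul wg
  rw [← Finset.prod_div_distrib]
  simp only [← Finset.prod_div_distrib]
  rw [← prod_boxes p (fun e => ((m + w₁ t₁ t₂ p e.1 e.2) * (m + w₂ t₁ t₂ p e.1 e.2)) /
    ((0 + w₁ t₁ t₂ p e.1 e.2) * (0 + w₂ t₁ t₂ p e.1 e.2)))]
  apply Finset.prod_congr rfl
  rintro ⟨i, j⟩ he
  obtain ⟨h1, h2⟩ := arm_cel p he
  have e1 : w₁ t₁ t₂ p i j = - W1 (-t₁) (-t₂) (cel p) (i, j) := by
    unfold w₁ W1
    have h1' : row p j - i = arm (cel p) (i, j) + 1 := h1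
    have h2' : col p i - j = leg (cel p) (i, j) + 1 := h2
    rw [h1', h2']
    push_cast
    ring
  have e2 : w₂ t₁ t₂ p i j = - W2 (-t₁) (-t₂) (cel p) (i, j) := by
    unfold w₂ W2
    have h1' : row p j - i = arm (cel p) (i, j) + 1 := h1
    have h2' : col p i - j = leg (cel p) (i, j) + 1 := h2
    rw [h1', h2']
    push_cast
    ring
  show ((m + w₁ t₁ t₂ p i j) * (m + w₂ t₁ t₂ p i j)) /
    ((0 + w₁ t₁ t₂ p i j) * (0 + w₂ t₁ t₂ p i j)) = _
  rw [e1, e2]
  congr 1
  · ring
  · ring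

lemma src_eq (x : ℕ → F) (I : ℕ →₀ ℕ) :
    (I.prod fun k a => x k ^ a / (a.factorial : F)) = src x I := by
  unfold src dfac mon Finsupp.prod
  rw [Finset.prod_div_distrib, map_inv₀, map_natCast, div_eq_inv_mul]
  push_cast
  rfl

lemma gen_eq (m l t₁ t₂ : F) :
    gen m l t₁ t₂ = Zg (wg (-t₁) (-t₂) (-m)) (fun k => chs l (-t₁) (-t₂) k) := by
  funext I
  unfold gen Zg qs
  ext1 n
  rw [coeff_mk, coeff_mk, ← sum_cel]
  apply Finset.sum_congr rfl
  intro p _
  rw [eul_cel, src_eq]
  simp only [ch_cel]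

lemma brk_av {ι : Type*} [Fintype ι] [DecidableEq ι] (m l t₁ t₂ : ι → F)
    (f : MvPolynomial ℕ F) : brk (∏ c, gen (m c) (l c) (t₁ c) (t₂ c)) f = av m l t₁ t₂ f := by
  have h : ∀ d : ℕ →₀ ℕ, C (((d.prod fun _ a => a.factorial : ℕ) : F)) *
      MvPowerSeries.coeff d (∏ c, gen (m c) (l c) (t₁ c) (t₂ c)) =
      PowerSeries.mk fun n => ∑ ν ∈ Finset.finsuppAntidiag (Finset.univ : Finset ι) n,
      ∑ q : (∀ c, (ν c).Partition),
        (d.prod fun k a => (∑ c, ch (l c) (t₁ c) (t₂ c) k (q c)) ^ a) *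
          ∏ c, (eul (m c) (t₁ c) (t₂ c) (q c) / eul 0 (t₁ c) (t₂ c) (q c)) := by
    intro d
    simp only [gen_eq, ch_cel, eul_cel]
    exact (av_mon (fun c => wg (-(t₁ c)) (-(t₂ c)) (-(m c)))
      (fun c k => chs (l c) (-(t₁ c)) (-(t₂ c)) k) d).symm
  unfold brk av
  ext n
  rw [map_sum, coeff_mk]
  have e : ∀ ν ∈ Finset.finsuppAntidiag (Finset.univ : Finset ι) n,
      (∑ q : (∀ c, (ν c).Partition),
        MvPolynomial.eval (fun k => ∑ c, ch (l c) (t₁ c) (t₂ c) k (q c)) f *
        ∏ c, (eul (m c) (t₁ c) (t₂ c) (q c) / eul 0 (t₁ c) (t₂ c) (q c))) =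
      ∑ d ∈ f.support, f.coeff d * ∑ q : (∀ c, (ν c).Partition),
        (d.prod fun k a => (∑ c, ch (l c) (t₁ c) (t₂ c) k (q c)) ^ a) *
          ∏ c, (eul (m c) (t₁ c) (t₂ c) (q c) / eul 0 (t₁ c) (t₂ c) (q c)) := by
    intro ν _
    simp only [MvPolynomial.eval_eq, Finset.sum_mul, Finset.mul_sum]
    rw [Finset.sum_comm]
    apply Finset.sum_congr rfl
    intro d _
    apply Finset.sum_congr rfl
    intro q _
    rw [mul_assoc]
    rfl
  rw [Finset.sum_congr rfl e, Finset.sum_comm]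
  apply Finset.sum_congr rfl
  intro d _
  rw [RingHom.map_mul, mul_assoc, h d, coeff_C_mul, coeff_mk, Finset.mul_sum]

end

section

variable {K : Type*} [Field K] [CharZero K]

omit [CharZero K] in
lemma neg_zw (a b : K) : -(zw a b) = lin (-a) (-b) := by
  unfold zw lin
  rw [neg_add, map_neg, HahnSeries.single_neg]

lemma gen_Zc {ι : Type*} (A B M L : ι → K) (m l : K) (c : ι) :
    gen (zw m (M c)) (zw l (L c)) (zw 0 (A c)) (zw 0 (B c)) = Zc A B M L m l c := by
  rw [gen_eq, neg_zw, neg_zw, neg_zw, neg_zero]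
  rfl

omit [CharZero K] in
lemma br_one (V : MvPowerSeries ℕ (LaurentSeries K)⟦X⟧) : br V 1 = MvPowerSeries.coeff 0 V := by
  unfold br brk
  rw [map_one, MvPolynomial.support_one]
  simp

lemma br_mem (p : Bool) {V : MvPowerSeries ℕ (LaurentSeries K)⟦X⟧}
    (hG : ∀ I : ℕ →₀ ℕ, ∃ G : (LaurentSeries K)⟦X⟧, Gp p (wt I) G ∧
      MvPowerSeries.coeff I V = MvPowerSeries.coeff 0 V * G)
    (f : MvPolynomial ℕ K) (w : ℕ) (hw : ∀ d ∈ f.support, okb p (wt d) w) :
    ∃ G : (LaurentSeries K)⟦X⟧, Gp p w G ∧ br V f = br V 1 * G := by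
  choose G hG hE using hG
  refine ⟨∑ d ∈ f.support, C (HahnSeries.C (f.coeff d *
    ((d.prod fun _ a => a.factorial : ℕ) : K)) : LaurentSeries K) * G d, ?_, ?_⟩
  · have h : ∀ T : Finset (ℕ →₀ ℕ), T ⊆ f.support → Gp p w (∑ d ∈ T, C (HahnSeries.C (f.coeff d *
        ((d.prod fun _ a => a.factorial : ℕ) : K)) : LaurentSeries K) * G d) := by
      intro T
      induction T using Finset.induction_on with
      | empty =>
        intro _
        rw [Finset.sum_empty]
        exact Gp_zero w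
      | insert a T ha ih =>
        intro hT
        rw [Finset.sum_insert ha]
        exact Gp_add (Gp_C _ (Gp_mono (hw a (hT (Finset.mem_insert_self a T))) (hG a)))
          (ih (fun x hx => hT (Finset.mem_insert_of_mem hx)))
    exact h _ (Finset.Subset.refl _)
  · rw [br_one]
    unfold br brk
    rw [MvPolynomial.support_map_of_injective f HahnSeries.C_injective, Finset.mul_sum]
    apply Finset.sum_congr rfl
    intro d _
    rw [hE d, MvPolynomial.coeff_map]
    have e : ((HahnSeries.C (f.coeff d) : LaurentSeries K) *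
        (((d.prod fun _ a => a.factorial : ℕ) : LaurentSeries K))) =
        HahnSeries.C (f.coeff d * ((d.prod fun _ a => a.factorial : ℕ) : K)) := by
      rw [RingHom.map_mul, map_natCast]
    rw [e]
    ring

omit [CharZero K] in
lemma reg_iff {g : (LaurentSeries K)⟦X⟧} (h : Reg g) : RegAt0 g := by
  intro n i hi
  have e := congrArg (coeff n) (h i hi)
  unfold cz at e
  rw [coeff_mk] at e
  exact e

omit [CharZero K] in
lemma at0_eq (g : (LaurentSeries K)⟦X⟧) : at0 g = cz 0 g := rfl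

end

/-- Q1 of the problem (both clauses) for projective surfaces with a trivial group action. -/
theorem result {K : Type*} [Field K] [CharZero K] {ι : Type*} [Fintype ι] [DecidableEq ι]
    (A B M L : ι → K) (m l : K) (ε : ι → ℤ) (hm : m ≠ 0)
    (hAB : ∀ c, ∀ a b : ℤ, (a : K) * A c + b * B c = 0 → a = 0 ∧ b = 0)
    (h0 : ∑ c, ε c * (A c * B c)⁻¹ = 0)
    (h1 : ∑ c, ε c * (A c * B c)⁻¹ * (A c + B c) = 0)
    (hM : ∑ c, ε c * (A c * B c)⁻¹ * M c = 0)
    (hL : ∑ c, ε c * (A c * B c)⁻¹ * L c = 0) :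
    ∃ V : MvPowerSeries ℕ (LaurentSeries K)⟦X⟧,
      (∃ U : ι → (MvPowerSeries ℕ (LaurentSeries K)⟦X⟧)ˣ,
        (∀ c, (U c : MvPowerSeries ℕ (LaurentSeries K)⟦X⟧) =
          gen (zw m (M c)) (zw l (L c)) (zw 0 (A c)) (zw 0 (B c))) ∧
        V = ((∏ c, U c ^ ε c : (MvPowerSeries ℕ (LaurentSeries K)⟦X⟧)ˣ) :
          MvPowerSeries ℕ (LaurentSeries K)⟦X⟧)) ∧
      ((∀ c, ε c = 1) → ∀ f : MvPolynomial ℕ K, br V f =
        av (fun c => zw m (M c)) (fun c => zw l (L c)) (fun c => zw 0 (A c))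
          (fun c => zw 0 (B c)) (MvPolynomial.map HahnSeries.C f)) ∧
      ∀ (f : MvPolynomial ℕ K) (w : ℕ), (∀ d ∈ f.support, mwt d ≤ w) →
        RegAt0 (br V f) ∧
        (∃ G ∈ qMZV K w, at0 (br V f) = at0 (br V 1) * G) ∧
        (l = 0 → (∀ c, 2 * L c = -(A c + B c)) → (∀ d ∈ f.support, mwt d % 2 = w % 2) →
          ∃ G ∈ qMZVpar K w, at0 (br V f) = at0 (br V 1) * G) := by
  obtain ⟨Zi, hZ⟩ := Z12_inv (c1 A) (c1 B) (c3 m M) (c4 l L)
  obtain ⟨U, hU⟩ : ∃ U : ι → (MvPowerSeries ℕ (LaurentSeries K)⟦X⟧)ˣ,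
      ∀ c, (U c : MvPowerSeries ℕ (LaurentSeries K)⟦X⟧) = Zc A B M L m l c :=
    ⟨fun c => ⟨Zc A B M L m l c,
      MvPowerSeries.map (Pi.evalRingHom (fun _ : ι => (LaurentSeries K)⟦X⟧) c) Zi,
      Zc_mul A B M L m l c hZ, by rw [mul_comm]; exact Zc_mul A B M L m l c hZ⟩, fun c => rfl⟩
  refine ⟨_, ⟨U, fun c => by rw [hU, gen_Zc], rfl⟩, ?_, ?_⟩
  · intro hε f
    unfold br
    rw [← brk_av]
    simp only [hε, zpow_one, Units.coe_prod, hU, gen_Zc]
  · intro f w hw
    have hwt : ∀ d : ℕ →₀ ℕ, wt d = mwt d := fun d => rfl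
    obtain ⟨hR, hG⟩ := main_gen false A B M L m l ε hm hAB h0 h1 hM hL
      (fun h => absurd h (by decide)) U hU
    obtain ⟨G, hG1, hG2⟩ := br_mem false hG f w (fun d hd => hw d hd)
    have hR1 : Reg (br ((∏ c, U c ^ ε c : (MvPowerSeries ℕ (LaurentSeries K)⟦X⟧)ˣ) :
        MvPowerSeries ℕ (LaurentSeries K)⟦X⟧) 1) := by
      rw [br_one]
      exact hR
    refine ⟨reg_iff (by rw [hG2]; exact Reg_mul hR1 hG1.1), ⟨cz 0 G, hG1.2, ?_⟩, ?_⟩
    · rw [hG2, at0_eq, at0_eq, cz0_mul hR1 hG1.1]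
    · intro hl hL2 hpar
      obtain ⟨_, hG'⟩ := main_gen true A B M L m l ε hm hAB h0 h1 hM hL
        (fun _ => ⟨hl, hL2⟩) U hU
      obtain ⟨G', hG1', hG2'⟩ := br_mem true hG' f w (fun d hd => by
        have h3 := hw d hd
        have h4 := hpar d hd
        rw [← hwt] at h3 h4
        exact ⟨(w - wt d) / 2, by omega⟩)
      refine ⟨cz 0 G', ?_, ?_⟩
      · have h5 := hG1'.2
        unfold qM at h5
        unfold qMZVpar
        refine Submodule.span_mono ?_ h5
        rintro g ⟨s, hs, ⟨k, hk⟩, rfl⟩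
        exact ⟨s, hs, by omega, by omega, rfl⟩
      · rw [hG2', at0_eq, at0_eq, cz0_mul hR1 hG1'.1]

end Pool.Agent.Results.MP_a7fa83_ag.CompactS
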