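import Pool.Agent.Lib.MP_a7fa83_ag.Convert

/-!
# MP_a7fa83_ag : the q-zeta values are closed under `q d/dq`

Let `Λ` be a commutative `ℚ`-algebra (for instance `Λ = H^*_G(pt)_loc`, or `Λ = ℚ`).
`result` is the step `f ↦ f ch_0` of Q1, for both clauses of Q1 (weight bound; weight bound and
parity): if `P` (`= ⟨1⟩`) satisfies `q dP/dq = - δ Z(2) P` and `F` (`= ⟨f⟩'`) is in the
`Λ`-span of the `Z(s)` with `wt ≤ w` (resp. `wt ≤ w`, `wt ≡ w mod 2`), then
`q d(P F)/dq = P G` with `G` in the corresponding span for `w + 2`.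
For `P = 1`, `δ = 0` this says that the spans are closed under `q d/dq`, with weight `+2`.
-/

namespace Pool.Agent.Results.MP_a7fa83_ag.Derivative

open PowerSeries Finset MPa7fa83

section

variable (Λ : Type*) [CommRing Λ] [Algebra ℚ Λ]

/-- `q d/dq` over `Λ` -/
noncomputable def DL : Derivation Λ Λ⟦X⟧ Λ⟦X⟧ := (X : Λ⟦X⟧) • PowerSeries.derivative Λ

omit [Algebra ℚ Λ] in
lemma DL_apply (f : Λ⟦X⟧) : DL Λ f = X * PowerSeries.derivative Λ f := rfl

lemma DL_map (g : ℚ⟦X⟧) : DL Λ (PowerSeries.map (algebraMap ℚ Λ) g)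
    = PowerSeries.map (algebraMap ℚ Λ) (DD g) := by
  rw [DL_apply, DD_apply]
  ext m
  rcases m with _ | m
  · simp
  · rw [PowerSeries.coeff_succ_X_mul, PowerSeries.coeff_derivative, PowerSeries.coeff_map,
      PowerSeries.coeff_map, PowerSeries.coeff_succ_X_mul, PowerSeries.coeff_derivative]
    simp

lemma QP_map {w : ℕ} {g : ℚ⟦X⟧} (hg : g ∈ QP w) :
    PowerSeries.map (algebraMap ℚ Λ) g ∈ qMZVpar Λ w := by
  unfold QP at hg
  induction hg using Submodule.span_induction with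
  | mem x hx =>
    obtain ⟨l, hl, ⟨k, hk⟩, rfl⟩ := hx
    exact Submodule.subset_span ⟨l, hl, by omega, by omega, rfl⟩
  | zero => rw [map_zero]; exact zero_mem _
  | add x y _ _ hx hy => rw [map_add]; exact add_mem hx hy
  | smul c x _ hx =>
    rw [PowerSeries.smul_eq_C_mul, map_mul, PowerSeries.map_C, ← PowerSeries.smul_eq_C_mul]
    exact Submodule.smul_mem _ _ hx

lemma par_le {v w : ℕ} (h : v ≤ w) {f : Λ⟦X⟧} (hf : f ∈ qMZVpar Λ v) : f ∈ qMZV Λ w := by
  unfold qMZVpar at hf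
  induction hf using Submodule.span_induction with
  | mem x hx =>
    obtain ⟨l, hl, h1, _, rfl⟩ := hx
    exact Submodule.subset_span ⟨l, hl, by omega, rfl⟩
  | zero => exact zero_mem _
  | add x y _ _ hx hy => exact add_mem hx hy
  | smul c x _ hx => exact Submodule.smul_mem _ _ hx

lemma par_mono {v w : ℕ} (h : ∃ k, v + 2 * k = w) {f : Λ⟦X⟧} (hf : f ∈ qMZVpar Λ v) :
    f ∈ qMZVpar Λ w := by
  unfold qMZVpar at hf
  obtain ⟨k, hk⟩ := h
  induction hf using Submodule.span_induction with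
  | mem x hx =>
    obtain ⟨l, hl, h1, h2, rfl⟩ := hx
    exact Submodule.subset_span ⟨l, hl, by omega, by omega, rfl⟩
  | zero => exact zero_mem _
  | add x y _ _ hx hy => exact add_mem hx hy
  | smul c x _ hx => exact Submodule.smul_mem _ _ hx

lemma DL_par {w : ℕ} {f : Λ⟦X⟧} (hf : f ∈ qMZVpar Λ w) : DL Λ f ∈ qMZVpar Λ (w + 2) := by
  unfold qMZVpar at hf
  induction hf using Submodule.span_induction with
  | mem x hx =>
    obtain ⟨l, hl, h1, h2, rfl⟩ := hx
    rw [DL_map]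
    exact par_mono Λ ⟨(w - l.sum) / 2, by omega⟩ (QP_map Λ (DD_Z l hl))
  | zero => rw [map_zero]; exact zero_mem _
  | add x y _ _ hx hy => rw [map_add]; exact add_mem hx hy
  | smul c x _ hx => rw [Derivation.map_smul]; exact Submodule.smul_mem _ _ hx

lemma DL_all {w : ℕ} {f : Λ⟦X⟧} (hf : f ∈ qMZV Λ w) : DL Λ f ∈ qMZV Λ (w + 2) := by
  unfold qMZV at hf
  induction hf using Submodule.span_induction with
  | mem x hx =>
    obtain ⟨l, hl, h1, rfl⟩ := hx
    rw [DL_map]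
    exact par_le Λ (by omega) (QP_map Λ (DD_Z l hl))
  | zero => rw [map_zero]; exact zero_mem _
  | add x y _ _ hx hy => rw [map_add]; exact add_mem hx hy
  | smul c x _ hx => rw [Derivation.map_smul]; exact Submodule.smul_mem _ _ hx

lemma Z2_par {w : ℕ} {f : Λ⟦X⟧} (hf : f ∈ qMZVpar Λ w) :
    PowerSeries.map (algebraMap ℚ Λ) (Z [2]) * f ∈ qMZVpar Λ (w + 2) := by
  unfold qMZVpar at hf
  induction hf using Submodule.span_induction with
  | mem x hx =>
    obtain ⟨l, hl, h1, h2, rfl⟩ := hx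
    rw [← map_mul]
    exact par_mono Λ ⟨(w - l.sum) / 2, by simp; omega⟩ (QP_map Λ (Z_mul [2] l (by simp) hl))
  | zero => rw [mul_zero]; exact zero_mem _
  | add x y _ _ hx hy => rw [mul_add]; exact add_mem hx hy
  | smul c x _ hx => rw [mul_smul_comm]; exact Submodule.smul_mem _ _ hx

lemma Z2_all {w : ℕ} {f : Λ⟦X⟧} (hf : f ∈ qMZV Λ w) :
    PowerSeries.map (algebraMap ℚ Λ) (Z [2]) * f ∈ qMZV Λ (w + 2) := by
  unfold qMZV at hf
  induction hf using Submodule.span_induction with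
  | mem x hx =>
    obtain ⟨l, hl, h1, rfl⟩ := hx
    rw [← map_mul]
    exact par_le Λ (by simp; omega) (QP_map Λ (Z_mul [2] l (by simp) hl))
  | zero => rw [mul_zero]; exact zero_mem _
  | add x y _ _ hx hy => rw [mul_add]; exact add_mem hx hy
  | smul c x _ hx => rw [mul_smul_comm]; exact Submodule.smul_mem _ _ hx

end

/-- The step `f ↦ f ch_0` of Q1 (`P = ⟨1⟩`, `F = ⟨f⟩'`, `P F = ⟨f⟩`, `P G = ⟨f ch_0⟩`); for
`P = 1`, `δ = 0`: the spans of q-zeta values are closed under `q d/dq`, with weight `+2`. -/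
theorem result (Λ : Type*) [CommRing Λ] [Algebra ℚ Λ] (w : ℕ) (δ : Λ) (P F : Λ⟦X⟧)
    (hP : X * PowerSeries.derivative Λ P
      = -(C δ * PowerSeries.map (algebraMap ℚ Λ) (Z [2]) * P)) :
    (F ∈ qMZV Λ w →
      ∃ G ∈ qMZV Λ (w + 2), X * PowerSeries.derivative Λ (P * F) = P * G) ∧
    (F ∈ qMZVpar Λ w →
      ∃ G ∈ qMZVpar Λ (w + 2), X * PowerSeries.derivative Λ (P * F) = P * G) := by
  have key : X * PowerSeries.derivative Λ (P * F)
        = P * (DL Λ F - δ • (PowerSeries.map (algebraMap ℚ Λ) (Z [2]) * F)) := by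
    rw [Derivation.leibniz, DL_apply, PowerSeries.smul_eq_C_mul]
    simp only [smul_eq_mul]
    linear_combination F * hP
  refine ⟨?_, ?_⟩
  · intro hF
    exact ⟨_, sub_mem (DL_all Λ hF) (Submodule.smul_mem _ δ (Z2_all Λ hF)), key⟩
  · intro hF
    exact ⟨_, sub_mem (DL_par Λ hF) (Submodule.smul_mem _ δ (Z2_par Λ hF)), key⟩

end Pool.Agent.Results.MP_a7fa83_ag.Derivative
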