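import Pool.Agent.Lib.MP_a7fa83_ag.Lw.W11

/-!
# MP_a7fa83_ag : Q1 in low degree, for all line bundles `M`

Both clauses of Q1 for toric surfaces `S`, all equivariant line bundles `L`, `M` and all
characteristic classes `f` of low degree, equivariantly, in the form given by localization.

Localization.  The fixed points of `Hilb(S, n)` are the tuples `(p_c)` of partitions, one for each
fixed point `c` of `S`, of total size `n`.  Let `t₁ c, t₂ c` be the tangent weights of `S` at `c`,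
and `l c`, `m c` the weights of `L`, `M` at `c`.  At the fixed point `(p_c)`

* `ch_k` of the fibre of `L^[n]` is the sum over `c` and over the boxes `(i, j)` of `p_c` of
  `(l c - i t₁ c - j t₂ c)^k / k!`;
* the weights of the tangent space of `Hilb(S, n)` are `(a + 1) t₁ - b t₂` and
  `(b + 1) t₂ - a t₁`, where `a`, `b` are the arm and the leg of a box of `p_c`, and the weights of
  `T(M)` are these plus `m c`.

`av m l t₁ t₂ f` is the resulting expression of `⟨f⟩`.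

`result`: suppose that every monomial `∏ ch_k^{d_k}` of `f` has `∑ k d_k ≤ 6` (the exponent of
`ch_0` is arbitrary).  Then `⟨f⟩ = ⟨1⟩ G` where `G` is in the span of the `Z(s)` (all `s_i ≥ 2`) of
weight `≤ wt f`; and if `L` is a square root of `K_S` and all monomials of `f` have weights of the
parity of `wt f`, then `G` is in the span of the `Z(s)` of weight `≤ wt f` and of the parity of
`wt f`.
-/

set_option autoImplicit false

namespace Pool.Agent.Results.MP_a7fa83_ag.LowDegree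

open Finset PowerSeries MPa7fa83 MPa7fa83.Ok MPa7fa83.Cs MPa7fa83.Lw

section

variable {F : Type*} [Field F]

/-- the height of the column `i` of the Young diagram: the number of parts `> i` -/
def col {n : ℕ} (p : n.Partition) (i : ℕ) : ℕ := (p.parts.filter (i < ·)).card

/-- the length of the row `j` of the Young diagram -/
def row {n : ℕ} (p : n.Partition) (j : ℕ) : ℕ := ((range n).filter (j < col p ·)).card

/-- the value of `ch_k` at one partition: the sum of `(l - i t₁ - j t₂)^k / k!` over the boxes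
`(i, j)`, `j < col p i` -/
def ch (l t₁ t₂ : F) (k : ℕ) {n : ℕ} (p : n.Partition) : F :=
  ∑ i ∈ range n, ∑ j ∈ range (col p i), (l - i * t₁ - j * t₂) ^ k / (k.factorial : F)

/-- the tangent weight `(a + 1) t₁ - b t₂`, `a = row p j - i - 1` the arm and
`b = col p i - j - 1` the leg of the box `(i, j)` -/
def w₁ (t₁ t₂ : F) {n : ℕ} (p : n.Partition) (i j : ℕ) : F :=
  ((row p j - i : ℕ) : F) * t₁ - ((col p i - j : ℕ) - 1 : F) * t₂

/-- the tangent weight `(b + 1) t₂ - a t₁` -/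
def w₂ (t₁ t₂ : F) {n : ℕ} (p : n.Partition) (i j : ℕ) : F :=
  ((col p i - j : ℕ) : F) * t₂ - ((row p j - i : ℕ) - 1 : F) * t₁

/-- the Euler class of the fibre of `T(M)` at one partition, `m` the weight of `M` -/
def eul (m t₁ t₂ : F) {n : ℕ} (p : n.Partition) : F :=
  ∏ i ∈ range n, ∏ j ∈ range (col p i), ((m + w₁ t₁ t₂ p i j) * (m + w₂ t₁ t₂ p i j))

/-- the weight of a monomial in `ch_0, ch_1, ch_2, ...` : the weight of `ch_k` is `k + 2` -/
def mwt (d : ℕ →₀ ℕ) : ℕ := d.sum fun k n => n * (k + 2)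

/-- the degree of a monomial in `ch_0, ch_1, ch_2, ...` : the degree of `ch_k` is `k` -/
def mdeg (d : ℕ →₀ ℕ) : ℕ := d.sum fun k n => n * k

/-- `⟨f⟩` by localization: the coefficient of `q^n` is the sum over all tuples of partitions of
total size `n` of the value of the polynomial `f` in `ch_0, ch_1, ...`, times the Euler class of
`T(M)`, divided by the Euler class of the tangent space -/
noncomputable def av {ι : Type*} [Fintype ι] [DecidableEq ι] (m l t₁ t₂ : ι → F)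
    (f : MvPolynomial ℕ F) : F⟦X⟧ :=
  PowerSeries.mk fun n => ∑ ν ∈ Finset.finsuppAntidiag (Finset.univ : Finset ι) n,
    ∑ p : (∀ c, (ν c).Partition),
      MvPolynomial.eval (fun k => ∑ c, ch (l c) (t₁ c) (t₂ c) k (p c)) f *
      ∏ c, (eul (m c) (t₁ c) (t₂ c) (p c) / eul 0 (t₁ c) (t₂ c) (p c))

end

section

variable {F : Type*} [Field F] [Algebra ℚ F]

lemma sum_boxes {n : ℕ} (p : n.Partition) {M : Type*} [AddCommMonoid M] (φ : ℕ × ℕ → M) :
    ∑ e ∈ cel p, φ e = ∑ i ∈ range n, ∑ j ∈ range (col p i), φ (i, j) := by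
  unfold cel
  rw [Finset.sum_filter, Finset.sum_product]
  apply Finset.sum_congr rfl
  intro i _
  have h : pcol p i ≤ n := by
    by_contra h
    push Not at h
    have h2 := (mem_cel p (e := (i, n))).2 h
    unfold cel at h2
    simp at h2
  rw [← Finset.sum_filter]
  apply Finset.sum_congr
  · ext j
    simp only [Finset.mem_filter, Finset.mem_range]
    constructor
    · exact fun h' => h'.2
    · exact fun h' => ⟨lt_of_lt_of_le h' h, h'⟩
  · intro j _
    rfl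

lemma prod_boxes {n : ℕ} (p : n.Partition) {M : Type*} [CommMonoid M] (φ : ℕ × ℕ → M) :
    ∏ e ∈ cel p, φ e = ∏ i ∈ range n, ∏ j ∈ range (col p i), φ (i, j) :=
  sum_boxes (M := Additive M) p φ

lemma ch_cel (l t₁ t₂ : F) (k : ℕ) {n : ℕ} (p : n.Partition) :
    ch l t₁ t₂ k p = chs l (-t₁) (-t₂) k (cel p) := by
  unfold ch chs
  rw [sum_boxes]
  apply Finset.sum_congr rfl
  intro i _
  apply Finset.sum_congr rfl
  intro j _
  unfold MPa7fa83.Cs.cn
  rw [map_inv₀, map_natCast, div_eq_inv_mul]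
  congr 2
  ring

omit [Algebra ℚ F] in
lemma w₁_cel (t₁ t₂ : F) {n : ℕ} (p : n.Partition) {i j : ℕ} (he : (i, j) ∈ cel p) :
    w₁ t₁ t₂ p i j = - W1 (-t₁) (-t₂) (cel p) (i, j) := by
  obtain ⟨h1, h2⟩ := arm_cel p he
  unfold w₁ W1
  have h1' : row p j - i = arm (cel p) (i, j) + 1 := h1
  have h2' : col p i - j = leg (cel p) (i, j) + 1 := h2
  rw [h1', h2']
  push_cast
  ring

omit [Algebra ℚ F] in
lemma w₂_cel (t₁ t₂ : F) {n : ℕ} (p : n.Partition) {i j : ℕ} (he : (i, j) ∈ cel p) :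
    w₂ t₁ t₂ p i j = - W2 (-t₁) (-t₂) (cel p) (i, j) := by
  obtain ⟨h1, h2⟩ := arm_cel p he
  unfold w₂ W2
  have h1' : row p j - i = arm (cel p) (i, j) + 1 := h1
  have h2' : col p i - j = leg (cel p) (i, j) + 1 := h2
  rw [h1', h2']
  push_cast
  ring

omit [Algebra ℚ F] in
lemma eul_cel (m t₁ t₂ : F) {n : ℕ} (p : n.Partition) :
    eul m t₁ t₂ p / eul 0 t₁ t₂ p = wg (-t₁) (-t₂) (-m) (cel p) := by
  unfold eul wg
  rw [← Finset.prod_div_distrib]
  simp only [← Finset.prod_div_distrib]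
  rw [← prod_boxes p (fun e => ((m + w₁ t₁ t₂ p e.1 e.2) * (m + w₂ t₁ t₂ p e.1 e.2)) /
    ((0 + w₁ t₁ t₂ p e.1 e.2) * (0 + w₂ t₁ t₂ p e.1 e.2)))]
  apply Finset.prod_congr rfl
  rintro ⟨i, j⟩ he
  show ((m + w₁ t₁ t₂ p i j) * (m + w₂ t₁ t₂ p i j)) /
    ((0 + w₁ t₁ t₂ p i j) * (0 + w₂ t₁ t₂ p i j)) = _
  rw [w₁_cel t₁ t₂ p he, w₂_cel t₁ t₂ p he]
  congr 1
  · ring
  · ring

omit [Algebra ℚ F] in
/-- the tangent weights are nonzero -/
lemma weights_ne {t₁ t₂ : F} (h : ∀ (n : ℕ) (p : n.Partition), eul 0 t₁ t₂ p ≠ 0)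
    (s : Finset (ℕ × ℕ)) (hs : Lo s) (e : ℕ × ℕ) (he : e ∈ s) :
    W1 (-t₁) (-t₂) s e ≠ 0 ∧ W2 (-t₁) (-t₂) s e ≠ 0 := by
  classical
  obtain ⟨n, p, rfl⟩ : ∃ (n : ℕ) (p : n.Partition), cel p = s := by
    refine ⟨s.card, ?_⟩
    by_contra hcon
    push Not at hcon
    have h1 := sum_cel s.card (fun s' => if s' = s then (1 : ℕ) else 0)
    rw [Finset.sum_eq_zero (fun p _ => if_neg (hcon p)),
      Finset.sum_ite_eq' (dg s.card) s (fun _ => 1), if_pos (mem_dg.2 ⟨hs, rfl⟩)] at h1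
    exact zero_ne_one h1
  have h1 := h _ p
  unfold eul at h1
  rw [← prod_boxes p (fun e => (0 + w₁ t₁ t₂ p e.1 e.2) * (0 + w₂ t₁ t₂ p e.1 e.2))] at h1
  have h2 := Finset.prod_ne_zero_iff.1 h1 e he
  obtain ⟨i, j⟩ := e
  simp only [zero_add] at h2
  rw [w₁_cel t₁ t₂ p he, w₂_cel t₁ t₂ p he, neg_mul_neg] at h2
  exact ⟨left_ne_zero_of_mul h2, right_ne_zero_of_mul h2⟩

lemma coeff_av {ι : Type*} [Fintype ι] [DecidableEq ι] (m l t₁ t₂ : ι → F)
    (f : MvPolynomial ℕ F) : av m l t₁ t₂ f = ∑ d ∈ f.support, C (f.coeff d * (dfac d : F)) *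
      MvPowerSeries.coeff d (∏ c, Zg (wg (-(t₁ c)) (-(t₂ c)) (-(m c)))
        (fun k => chs (l c) (-(t₁ c)) (-(t₂ c)) k)) := by
  have h : ∀ d : ℕ →₀ ℕ, C (dfac d : F) *
      MvPowerSeries.coeff d (∏ c, Zg (wg (-(t₁ c)) (-(t₂ c)) (-(m c)))
        (fun k => chs (l c) (-(t₁ c)) (-(t₂ c)) k)) =
      PowerSeries.mk fun n => ∑ ν ∈ Finset.finsuppAntidiag (Finset.univ : Finset ι) n,
      ∑ q : (∀ c, (ν c).Partition),
        (d.prod fun k a => (∑ c, ch (l c) (t₁ c) (t₂ c) k (q c)) ^ a) *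
          ∏ c, (eul (m c) (t₁ c) (t₂ c) (q c) / eul 0 (t₁ c) (t₂ c) (q c)) := by
    intro d
    simp only [ch_cel, eul_cel]
    exact (av_mon (fun c => wg (-(t₁ c)) (-(t₂ c)) (-(m c)))
      (fun c k => chs (l c) (-(t₁ c)) (-(t₂ c)) k) d).symm
  unfold av
  ext n
  rw [map_sum, coeff_mk]
  have e : ∀ ν ∈ Finset.finsuppAntidiag (Finset.univ : Finset ι) n,
      (∑ q : (∀ c, (ν c).Partition),
        MvPolynomial.eval (fun k => ∑ c, ch (l c) (t₁ c) (t₂ c) k (q c)) f *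
        ∏ c, (eul (m c) (t₁ c) (t₂ c) (q c) / eul 0 (t₁ c) (t₂ c) (q c))) =
      ∑ d ∈ f.support, f.coeff d * ∑ q : (∀ c, (ν c).Partition),
        (d.prod fun k a => (∑ c, ch (l c) (t₁ c) (t₂ c) k (q c)) ^ a) *
          ∏ c, (eul (m c) (t₁ c) (t₂ c) (q c) / eul 0 (t₁ c) (t₂ c) (q c)) := by
    intro ν _
    simp only [MvPolynomial.eval_eq, Finset.sum_mul, Finset.mul_sum]
    rw [Finset.sum_comm]
    apply Finset.sum_congr rfl
    intro d _
    apply Finset.sum_congr rfl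
    intro q _
    rw [mul_assoc]
    rfl
  rw [Finset.sum_congr rfl e, Finset.sum_comm]
  apply Finset.sum_congr rfl
  intro d _
  rw [RingHom.map_mul, mul_assoc, h d, coeff_C_mul, coeff_mk, Finset.mul_sum]

lemma av_one {ι : Type*} [Fintype ι] [DecidableEq ι] (m l t₁ t₂ : ι → F) :
    av m l t₁ t₂ 1 = MvPowerSeries.coeff 0 (∏ c, Zg (wg (-(t₁ c)) (-(t₂ c)) (-(m c)))
        (fun k => chs (l c) (-(t₁ c)) (-(t₂ c)) k)) := by
  rw [coeff_av, MvPolynomial.support_one, Finset.sum_singleton]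
  have h : dfac 0 = 1 := by
    unfold dfac
    exact Finsupp.prod_zero_index
  rw [h, MvPolynomial.coeff_one, if_pos rfl, Nat.cast_one, mul_one, map_one, one_mul]

end

section

variable {K : Type*} [Field K] [CharZero K] {ι : Type*} [Fintype ι] [DecidableEq ι]

lemma main (p : Bool) {m l t₁ t₂ : ι → K}
    (hu : ∀ (c : ι) (n : ℕ) (q : n.Partition), eul 0 (t₁ c) (t₂ c) q ≠ 0)
    (hp : p = true → ∀ c, 2 * l c = -(t₁ c + t₂ c))
    (f : MvPolynomial ℕ K) (w : ℕ) (hdeg : ∀ d ∈ f.support, mdeg d ≤ 6)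
    (hw : ∀ d ∈ f.support, okb p (mwt d) w) :
    ∃ G ∈ qM K (okb p) w, av m l t₁ t₂ f = av m l t₁ t₂ 1 * G := by
  have hG : ∀ d : ℕ →₀ ℕ, mdeg d ≤ 6 → ∃ G ∈ qM K (okb p) (mwt d),
      MvPowerSeries.coeff d (∏ c, Zg (wg (-(t₁ c)) (-(t₂ c)) (-(m c)))
        (fun k => chs (l c) (-(t₁ c)) (-(t₂ c)) k)) =
      MvPowerSeries.coeff 0 (∏ c, Zg (wg (-(t₁ c)) (-(t₂ c)) (-(m c)))
        (fun k => chs (l c) (-(t₁ c)) (-(t₂ c)) k)) * G := by
    intro d hd
    exact low_prod (p := p) (fun c => weights_ne (hu c))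
      (fun h c => by rw [hp h c]; ring) d hd
  choose! G hG1 hG2 using hG
  refine ⟨∑ d ∈ f.support, C (f.coeff d * (dfac d : K)) * G d, ?_, ?_⟩
  · refine Submodule.sum_mem _ fun d hd => ?_
    rw [← PowerSeries.smul_eq_C_mul]
    refine Submodule.smul_mem _ _ ?_
    have h1 := hG1 d (hdeg d hd)
    unfold qM at h1 ⊢
    refine Submodule.span_mono ?_ h1
    rintro g ⟨s, hs, h2, rfl⟩
    exact ⟨s, hs, okb_trans h2 (hw d hd), rfl⟩
  · rw [av_one, coeff_av, Finset.mul_sum]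
    apply Finset.sum_congr rfl
    intro d hd
    rw [hG2 d (hdeg d hd)]
    ring

end

/-- Q1 of the problem (both clauses) for all `L` and `M`, toric `S`, and all `f` whose monomials
`∏ ch_k^{d_k}` satisfy `∑ k d_k ≤ 6`. -/
theorem result {K : Type*} [Field K] [CharZero K] {ι : Type*} [Fintype ι] [DecidableEq ι]
    (m l t₁ t₂ : ι → K)
    (hu : ∀ (c : ι) (n : ℕ) (p : n.Partition), eul 0 (t₁ c) (t₂ c) p ≠ 0)
    (f : MvPolynomial ℕ K) (w : ℕ) (hdeg : ∀ d ∈ f.support, mdeg d ≤ 6)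
    (hw : ∀ d ∈ f.support, mwt d ≤ w) :
    (∃ G ∈ qMZV K w, av m l t₁ t₂ f = av m l t₁ t₂ 1 * G) ∧
    ((∀ c, 2 * l c = -(t₁ c + t₂ c)) → (∀ d ∈ f.support, mwt d % 2 = w % 2) →
      ∃ G ∈ qMZVpar K w, av m l t₁ t₂ f = av m l t₁ t₂ 1 * G) := by
  refine ⟨?_, fun hl hpar => ?_⟩
  · exact main false hu (fun h => absurd h (by decide)) f w hdeg hw
  · obtain ⟨G, hG, e⟩ := main true hu (fun _ => hl) f w hdeg (fun d hd => by
      have h1 := hw d hd
      have h2 := hpar d hd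
      exact ⟨(w - mwt d) / 2, by omega⟩)
    refine ⟨G, ?_, e⟩
    unfold qM at hG
    unfold qMZVpar
    refine Submodule.span_mono ?_ hG
    rintro g ⟨s, hs, ⟨k, hk⟩, rfl⟩
    exact ⟨s, hs, by omega, by omega, rfl⟩

end Pool.Agent.Results.MP_a7fa83_ag.LowDegree
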